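import Pool.Agent.L0h42.CL.Stm

/-! Module NC of the project CL: the pairs without conflict, on average over the constant term. -/

set_option autoImplicit false

namespace Pool.Agent.L0h2.CL
open Finset
open Pool.Agent.L0h42.TB
open Pool.Agent.L0h42.CL
open Pool.Agent.H373R2.T7

open Classical in
/-- the sum of the inverse moduli -/
lemma sum_mo (k z R : ℕ) : ∑ x ∈ NCF k z R, (1 : ℝ) / (mo x : ℝ) ≤ ((1 + Real.log R) ^ 3) ^ k := by
  have h := sum_lc_gen (κ := Fin k) z R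
  rw [Fintype.card_fin] at h
  refine le_trans ?_ h
  unfold NCF mo
  exact sum_le_sum_of_subset_of_nonneg (filter_subset _ _) fun _ _ _ => by positivity

open Classical in
lemma mo_pos {k z R : ℕ} {x : (Fin k → ℕ) × (Fin k → ℕ)} (hx : x ∈ NCF k z R) : 1 ≤ mo x := by
  unfold NCF at hx
  rw [mem_filter, mem_product] at hx
  obtain ⟨a1, a2, a3⟩ := lc_rough hx.1.1 hx.1.2
  unfold mo
  exact Nat.pos_of_ne_zero (prod_ne_zero_iff.2 fun l _ => by have := a1 l; omega)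

open Classical in
lemma mem_PD_of {k z R : ℕ} {x : (Fin k → ℕ) × (Fin k → ℕ)} (hx : x ∈ NCF k z R) :
    x.1 ∈ PD (Fin k) z R ∧ x.2 ∈ PD (Fin k) z R := by
  unfold NCF at hx
  rw [mem_filter, mem_product] at hx
  exact hx.1

theorem t_NC (hC : S_CNT) (hR2 : S_R2) : S_NC := by
  intro k A B hk a0 b0 ha0 h
  obtain ⟨K, hK⟩ : ∃ K, K = 2 * k + a0.toNat := ⟨_, rfl⟩
  obtain ⟨U, hU⟩ : ∃ U, U = A + 2 * B + 3 * k + 1 := ⟨_, rfl⟩
  refine ⟨1, fun E => ?_⟩
  obtain ⟨m2, h2⟩ := choice K E U 40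
  obtain ⟨m3, h3⟩ := log_le_t (U + (3 * (K * (1 + E)) + U + 1) * K)
  obtain ⟨m4, h4⟩ := ev_L' ((a0 : ℝ) + 12)
  refine ⟨max m2 (max m3 (max m4 3)), ?_⟩
  intro N hN z R X T1 T2 hz1 hz2 hR1 hR hX hT hRT hNT Λ hΛ hs
  have n2 : m2 ≤ N := le_trans (le_max_left _ _) hN
  have nn := le_trans (le_max_right m2 _) hN
  have n3 : m3 ≤ N := le_trans (le_max_left _ _) nn
  have n4 : m4 ≤ N := le_trans (le_trans (le_max_left _ _) (le_max_right _ _)) nn
  have hN3 : 3 ≤ N := le_trans (le_trans (le_max_right _ _) (le_max_right _ _)) nn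
  have hN1 : 1 ≤ N := by omega
  have hN0 : (0 : ℝ) < N := by exact_mod_cast hN1
  obtain ⟨t, ht0, ht40, hsq⟩ := exists_t N hN1
  have hLm := h3 N n3 t ht0 ht40 hsq
  have hL12 := h4 N n4
  obtain ⟨r, hr1, hr2, hr3⟩ := h2 N n2 z hz2
  set L := Real.log N with hLd
  have ha0r : (1 : ℝ) ≤ (a0 : ℝ) := by exact_mod_cast ha0
  have hL1 : 1 ≤ L := by linarith
  have hL0 : 0 < L := by linarith
  have hza : a0 ≤ (z : ℤ) := by
    have e : (a0 : ℝ) ≤ (z : ℝ) := by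
      rw [pow_one] at hz1
      linarith
    exact_mod_cast e
  have hRr : (1 : ℝ) ≤ R := by exact_mod_cast hR1
  have hlR0 : 0 ≤ Real.log R := Real.log_nonneg hRr
  have hlogR : 1 + Real.log R ≤ L := by
    have e1 : Real.log ((R : ℝ) ^ 80) ≤ L := Real.log_le_log (by positivity) (by exact_mod_cast hR)
    rw [Real.log_pow] at e1
    push_cast at e1
    nlinarith
  have ht1 : 1 ≤ t := by
    have : L ≤ t := le_trans (le_self_pow₀ hL1 (by omega)) hLm
    linarith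
  have hzt : ((z : ℝ) + 1) ^ r ≤ t := by
    apply le_of_pow_le_pow_left₀ (n := 40) (by norm_num) ht0
    rw [ht40]
    exact hr2
  have hRt : (R : ℝ) * R ≤ t := by
    apply le_of_pow_le_pow_left₀ (n := 40) (by norm_num) ht0
    rw [ht40]
    have e1 : ((R : ℝ) * R) ^ 40 = (R : ℝ) ^ 80 := by ring
    rw [e1]
    exact_mod_cast hR
  have hkr2 : (K : ℝ) ^ r * L ^ U ≤ t := by
    calc (K : ℝ) ^ r * L ^ U ≤ L ^ ((3 * (K * (1 + E)) + U + 1) * K) * L ^ U := mul_le_mul_of_nonneg_right (hr3 K) (by positivity)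
      _ = L ^ (U + (3 * (K * (1 + E)) + U + 1) * K) := by rw [← pow_add, add_comm]
      _ ≤ t := hLm
  have hR2N : (R : ℝ) * R ≤ N := by
    calc (R : ℝ) * R ≤ t := hRt
      _ ≤ t ^ 40 := le_self_pow₀ ht1 (by norm_num)
      _ = N := ht40
  -- the length
  obtain ⟨D, hD⟩ : ∃ D : ℝ, D = (T2 : ℝ) - T1 := ⟨_, rfl⟩
  have hD0 : 0 ≤ D := by
    have : (T1 : ℝ) ≤ T2 := by exact_mod_cast hT
    rw [hD]; linarith
  have hDt : t ^ 10 ≤ D := by
    apply le_of_pow_le_pow_left₀ (n := 4) (by norm_num) hD0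
    have e1 : (t ^ 10) ^ 4 = (N : ℝ) := by rw [← pow_mul, ← ht40]
    rw [e1, hD]
    have e2 : (N : ℝ) ≤ ((T2 - T1 : ℕ) : ℝ) ^ 4 := by exact_mod_cast hNT
    rwa [Nat.cast_sub hT] at e2
  have hK1 : 1 ≤ K := by omega
  have hXN : (X : ℝ) ≤ N := by exact_mod_cast hX
  have hLU : 0 < L ^ U := by positivity
  have q1 : ((z : ℝ) + 1) ^ r * (K : ℝ) ^ r * (R * R) ≤ D / L ^ U := by
    rw [le_div_iff₀ hLU]
    calc ((z : ℝ) + 1) ^ r * (K : ℝ) ^ r * (R * R) * L ^ U =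
          ((z : ℝ) + 1) ^ r * ((K : ℝ) ^ r * L ^ U) * (R * R) := by ring
      _ ≤ t * t * t := by gcongr
      _ = t ^ 3 := by ring
      _ ≤ t ^ 10 := pow_le_pow_right₀ ht1 (by norm_num)
      _ ≤ D := hDt
  rw [sum_comm]
  have g : ∀ x ∈ NCF k z R, ∑ a ∈ Icc 1 X, |Λ x.1 * Λ x.2| *
      |((TR a0 b0 h T1 T2 z (lc x) a).card : ℝ) - roq a0 b0 h x a * (((T2 : ℝ) - T1) / mo x * Vq a0 b0 h z a)| ≤
      L ^ B * L ^ B * (2 * N * (6 * (D / L ^ U))) * (1 / (mo x : ℝ)) := by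
    intro x hx
    have hmo1 := mo_pos hx
    have hmo0 : (0 : ℝ) < mo x := by exact_mod_cast hmo1
    rw [← mul_sum]
    have hrhs : 0 ≤ L ^ B * L ^ B * (2 * N * (6 * (D / L ^ U))) * (1 / (mo x : ℝ)) := by positivity
    by_cases hz1 : Λ x.1 = 0
    · rw [hz1, zero_mul, abs_zero, zero_mul]; exact hrhs
    by_cases hz2 : Λ x.2 = 0
    · rw [hz2, mul_zero, abs_zero, zero_mul]; exact hrhs
    have hmo : (mo x : ℝ) ≤ R * R := by
      have : mo x ≤ R * R := (lc_prod_le x).trans (Nat.mul_le_mul (hs _ hz1) (hs _ hz2))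
      exact_mod_cast this
    have hLL : |Λ x.1 * Λ x.2| ≤ L ^ B * L ^ B := by
      rw [abs_mul]
      exact mul_le_mul (hΛ _ (mem_PD_of hx).1) (hΛ _ (mem_PD_of hx).2) (abs_nonneg _) (by positivity)
    have p2 : ∑ a ∈ Icc 1 X, (roq a0 b0 h x a : ℝ) ≤ 2 * N := by
      have h5 := (hR2 k a0 b0 h z R X ha0 hza x hx).1
      rw [abs_le] at h5
      linarith [h5.2]
    have p1 : ∑ a ∈ Icc 1 X, |((TR a0 b0 h T1 T2 z (lc x) a).card : ℝ) - roq a0 b0 h x a * (((T2 : ℝ) - T1) / mo x * Vq a0 b0 h z a)| ≤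
        (∑ a ∈ Icc 1 X, (roq a0 b0 h x a : ℝ)) * (2 * (((z : ℝ) + 1) ^ r * (K : ℝ) ^ r) + 4 * (((T2 : ℝ) - T1) / mo x) * Real.exp (3 * (K * (1 + Real.log z)) - r)) := by
      rw [sum_mul]
      exact sum_le_sum fun a _ => hC k K a0 b0 h z R r T1 T2 a ha0 hK1 (by omega) hT x hx
    have p3 : 2 * (((z : ℝ) + 1) ^ r * (K : ℝ) ^ r) + 4 * (((T2 : ℝ) - T1) / mo x) * Real.exp (3 * (K * (1 + Real.log z)) - r) ≤
        6 * (D / L ^ U) * (1 / (mo x : ℝ)) := by
      have u1 : (1 : ℝ) ≤ (R * R) * (1 / (mo x : ℝ)) := by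
        rw [mul_one_div, one_le_div hmo0]
        exact hmo
      have u2 : ((z : ℝ) + 1) ^ r * (K : ℝ) ^ r ≤ D / L ^ U * (1 / (mo x : ℝ)) := by
        calc ((z : ℝ) + 1) ^ r * (K : ℝ) ^ r ≤ ((z : ℝ) + 1) ^ r * (K : ℝ) ^ r * ((R * R) * (1 / (mo x : ℝ))) :=
              le_mul_of_one_le_right (by positivity) u1
          _ = ((z : ℝ) + 1) ^ r * (K : ℝ) ^ r * (R * R) * (1 / (mo x : ℝ)) := by ring
          _ ≤ _ := mul_le_mul_of_nonneg_right q1 (by positivity)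
      have u3 : 4 * (((T2 : ℝ) - T1) / mo x) * Real.exp (3 * (K * (1 + Real.log z)) - r) ≤ 4 * (D / mo x) * (1 / L ^ U) := by
        rw [← hD]
        exact mul_le_mul_of_nonneg_left hr1 (by positivity)
      have u4 : 4 * (D / mo x) * (1 / L ^ U) = 4 * (D / L ^ U) * (1 / (mo x : ℝ)) := by
        field_simp
      rw [u4] at u3
      linarith
    calc _ ≤ (L ^ B * L ^ B) * ((2 * N) * (6 * (D / L ^ U) * (1 / (mo x : ℝ)))) := by
          apply mul_le_mul hLL _ (sum_nonneg fun _ _ => abs_nonneg _) (by positivity)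
          refine p1.trans (mul_le_mul p2 p3 ?_ (by positivity))
          have : 0 ≤ ((T2 : ℝ) - T1) / mo x := by rw [← hD]; positivity
          positivity
      _ = _ := by ring
  refine (sum_le_sum g).trans ?_
  rw [← mul_sum]
  have s1 : ∑ x ∈ NCF k z R, (1 : ℝ) / (mo x : ℝ) ≤ L ^ (3 * k) := by
    refine (sum_mo k z R).trans ?_
    rw [pow_mul]
    exact pow_le_pow_left₀ (by positivity) (pow_le_pow_left₀ (by positivity) hlogR 3) k
  calc _ ≤ L ^ B * L ^ B * (2 * N * (6 * (D / L ^ U))) * L ^ (3 * k) :=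
        mul_le_mul_of_nonneg_left s1 (by positivity)
    _ = 12 / L * (N * D / L ^ A) := by
        rw [hU]
        have e3 : L ^ (A + 2 * B + 3 * k + 1) = L ^ A * (L ^ B * L ^ B) * L ^ (3 * k) * L := by
          rw [pow_add, pow_add, pow_add, pow_one, mul_comm 2 B, pow_mul]
          ring
        rw [e3]
        field_simp
        ring
    _ ≤ 1 * (N * D / L ^ A) := by
        apply mul_le_mul_of_nonneg_right _ (by positivity)
        rw [div_le_one (by positivity)]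
        linarith
    _ = _ := by rw [one_mul, hD]

end Pool.Agent.L0h2.CL
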