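import Pool.Agent.L0h2.CL.NC

/-! Module VAR of the project CL: the number of classes has the expected value for almost all constant terms. -/

set_option autoImplicit false

namespace Pool.Agent.L0h2.CL
open Finset
open Pool.Agent.L0h42.TB
open Pool.Agent.L0h42.CL
open Pool.Agent.H373R2.T7

/-- the joint pair -/
def jo {k : ℕ} (y : ((Fin k → ℕ) × (Fin k → ℕ)) × ((Fin k → ℕ) × (Fin k → ℕ))) :
    (Fin k ⊕ Fin k → ℕ) × (Fin k ⊕ Fin k → ℕ) := (Sum.elim y.1.1 y.2.1, Sum.elim y.1.2 y.2.2)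

lemma lc_jo_inl {k : ℕ} (y : ((Fin k → ℕ) × (Fin k → ℕ)) × ((Fin k → ℕ) × (Fin k → ℕ))) (l : Fin k) :
    lc (jo y) (Sum.inl l) = lc y.1 l := rfl

lemma lc_jo_inr {k : ℕ} (y : ((Fin k → ℕ) × (Fin k → ℕ)) × ((Fin k → ℕ) × (Fin k → ℕ))) (l : Fin k) :
    lc (jo y) (Sum.inr l) = lc y.2 l := rfl

lemma elim_inj {k : ℕ} {a b a' b' : Fin k → ℕ} (h : (Sum.elim a b : Fin k ⊕ Fin k → ℕ) = Sum.elim a' b') : a = a' ∧ b = b' := by
  constructor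
  · funext l
    exact congrFun h (Sum.inl l)
  · funext l
    exact congrFun h (Sum.inr l)

lemma jo_inj {k : ℕ} (y y' : ((Fin k → ℕ) × (Fin k → ℕ)) × ((Fin k → ℕ) × (Fin k → ℕ))) (h : jo y = jo y') : y = y' := by
  obtain ⟨⟨a, b⟩, c, d⟩ := y
  obtain ⟨⟨a', b'⟩, c', d'⟩ := y'
  unfold jo at h
  rw [Prod.mk.injEq] at h
  obtain ⟨h1, h2⟩ := h
  obtain ⟨h3, h4⟩ := elim_inj h1
  obtain ⟨h5, h6⟩ := elim_inj h2
  simp only at h3 h4 h5 h6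
  rw [h3, h4, h5, h6]

lemma jo_mem {k z R : ℕ} {y : ((Fin k → ℕ) × (Fin k → ℕ)) × ((Fin k → ℕ) × (Fin k → ℕ))}
    (h1 : y.1.1 ∈ PD (Fin k) z R ∧ y.1.2 ∈ PD (Fin k) z R) (h2 : y.2.1 ∈ PD (Fin k) z R ∧ y.2.2 ∈ PD (Fin k) z R) :
    jo y ∈ PD (Fin k ⊕ Fin k) z R ×ˢ PD (Fin k ⊕ Fin k) z R := by
  rw [mem_product]
  constructor
  · rw [mem_PD]
    rintro (l | l)
    · exact mem_PD.1 h1.1 l
    · exact mem_PD.1 h2.1 l
  · rw [mem_PD]
    rintro (l | l)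
    · exact mem_PD.1 h1.2 l
    · exact mem_PD.1 h2.2 l

lemma conf_jo {k : ℕ} (y : ((Fin k → ℕ) × (Fin k → ℕ)) × ((Fin k → ℕ) × (Fin k → ℕ)))
    (h : ¬ (mo y.1).Coprime (mo y.2)) : Conf (jo y) := by
  intro hc
  apply h
  unfold mo
  apply Nat.Coprime.prod_left
  intro l _
  apply Nat.Coprime.prod_right
  intro l' _
  exact hc (Sum.inl l) (Sum.inr l') (by simp)

lemma mo_jo {k : ℕ} (y : ((Fin k → ℕ) × (Fin k → ℕ)) × ((Fin k → ℕ) × (Fin k → ℕ))) :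
    ∏ l, lc (jo y) l = mo y.1 * mo y.2 := by
  rw [Fintype.prod_sum_type]
  rfl

open Classical in
/-- the pairs of pairs with a common factor -/
lemma nc_sum (hW : Pool.Agent.L0h42.PP.S_WC) (k z R : ℕ) (hz : 1 ≤ z) (hR : 1 ≤ R) :
    ∑ y ∈ (NCF k z R ×ˢ NCF k z R).filter (fun y => ¬ (mo y.1).Coprime (mo y.2)),
      (∏ l, ((lc y.1 l).divisors.card : ℝ)) * ((1 / (mo y.1 : ℝ)) * (1 / (mo y.2 : ℝ))) ≤
      ((k + k : ℕ) : ℝ) * (3 / √(z : ℝ)) * ((1 + Real.log R) ^ 3 * (1 + 2 * Real.log R) ^ (2 ^ (2 * 1 + 2))) ^ (k + k) := by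
  have h := hW (Fin k ⊕ Fin k) 1 z R hz hR
  rw [Fintype.card_sum, Fintype.card_fin] at h
  refine le_trans ?_ h
  apply sum_inj_le _ _ jo
  · intro y hy
    rw [mem_filter, mem_product] at hy
    rw [mem_filter]
    exact ⟨jo_mem (mem_PD_of hy.1.1) (mem_PD_of hy.1.2), conf_jo y hy.2⟩
  · intro y _ y' _ hyy
    exact jo_inj y y' hyy
  · intro y _
    positivity
  · intro y hy
    rw [mem_filter, mem_product] at hy
    rw [mo_jo, Fintype.prod_sum_type]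
    simp only [lc_jo_inl, lc_jo_inr, pow_one]
    have h1 : (1 : ℝ) ≤ ∏ l, ((lc y.2 l).divisors.card : ℝ) := by
      obtain ⟨a1, a2, a3⟩ := lc_rough (mem_PD_of hy.1.2).1 (mem_PD_of hy.1.2).2
      have h2 : ∏ _l : Fin k, (1 : ℝ) ≤ ∏ l, ((lc y.2 l).divisors.card : ℝ) := by
        apply prod_le_prod
        · intro _ _; norm_num
        · intro l _
          have : 0 < (lc y.2 l).divisors.card := card_pos.2 ⟨1, Nat.one_mem_divisors.2 (by have := a1 l; omega)⟩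
          exact_mod_cast this
      rwa [prod_const_one] at h2
    push_cast
    rw [one_div_mul_one_div]
    apply mul_le_mul_of_nonneg_right _ (by positivity)
    exact le_mul_of_one_le_right (by positivity) h1

/-- the expansion of the square -/
lemma sq_exp {α β : Type*} (S : Finset α) (T : Finset β) (w : α → ℝ) (ρ : α → β → ℝ) :
    ∑ a ∈ T, (∑ x ∈ S, w x * (ρ x a - 1)) ^ 2 =
      ∑ x ∈ S, ∑ x' ∈ S, w x * w x' * ∑ a ∈ T, (ρ x a - 1) * (ρ x' a - 1) := by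
  have e : ∀ a ∈ T, (∑ x ∈ S, w x * (ρ x a - 1)) ^ 2 = ∑ x ∈ S, ∑ x' ∈ S, w x * w x' * ((ρ x a - 1) * (ρ x' a - 1)) := by
    intro a _
    rw [sq, sum_mul_sum]
    apply sum_congr rfl
    intro x _
    apply sum_congr rfl
    intro x' _
    ring
  rw [sum_congr rfl e, sum_comm]
  apply sum_congr rfl
  intro x _
  rw [sum_comm]
  apply sum_congr rfl
  intro x' _
  rw [mul_sum]

lemma br_exp (X : ℕ) (f g : ℕ → ℝ) : ∑ a ∈ Icc 1 X, (f a - 1) * (g a - 1) =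
    ∑ a ∈ Icc 1 X, f a * g a - ∑ a ∈ Icc 1 X, f a - ∑ a ∈ Icc 1 X, g a + X := by
  have e : ∀ a ∈ Icc 1 X, (f a - 1) * (g a - 1) = f a * g a - f a - g a + 1 := by
    intro a _; ring
  rw [sum_congr rfl e, sum_add_distrib, sum_sub_distrib, sum_sub_distrib, sum_const, Nat.card_Icc]
  simp

lemma b_cop (s u v X M M' : ℝ) (r6 : |s - X| ≤ M * M') (r1 : |u - X| ≤ M) (r3 : |v - X| ≤ M') (hM : 1 ≤ M) (hM' : 1 ≤ M') :
    |s - u - v + X| ≤ 3 * (M * M') := by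
  have b1 : M ≤ M * M' := le_mul_of_one_le_right (by linarith) hM'
  have b2 : M' ≤ M * M' := le_mul_of_one_le_left (by linarith) hM
  rw [abs_le] at r6 r1 r3 ⊢
  constructor
  · linarith [r6.1, r1.2, r3.2]
  · linarith [r6.2, r1.1, r3.1]

lemma b_non (s u v X M M' N P : ℝ) (i2 : 0 ≤ s) (i1 : 0 ≤ v) (r5 : s ≤ (X + M * M') * P) (r1 : |u - X| ≤ M)
    (r3 : |v - X| ≤ M') (hM : 1 ≤ M) (hM' : 1 ≤ M') (hX : X ≤ N) (hX0 : 0 ≤ X) (c5 : M * M' ≤ N) (hP1 : 1 ≤ P) :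
    |s - u - v + X| ≤ 7 * N * P := by
  have hN : 0 ≤ N := by linarith
  have b1 : M ≤ M * M' := le_mul_of_one_le_right (by linarith) hM'
  have b2 : M' ≤ M * M' := le_mul_of_one_le_left (by linarith) hM
  have c6 : (X + M * M') * P ≤ 2 * N * P := by
    apply mul_le_mul_of_nonneg_right _ (by linarith)
    linarith
  have c7 : N ≤ N * P := le_mul_of_one_le_right hN hP1
  rw [abs_le] at r1 r3 ⊢
  constructor
  · linarith [r1.2, r3.2]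
  · linarith

lemma w_bd (a b c d W m m' : ℝ) (h1 : |a * b| ≤ W * W) (h2 : |c * d| ≤ W * W) (hm : 0 < m) (hm' : 0 < m') (hW : 0 ≤ W) :
    |a * b / m * (c * d / m')| ≤ (W * W) * (W * W) * ((1 / m) * (1 / m')) := by
  rw [abs_mul, abs_div, abs_div, abs_of_pos hm, abs_of_pos hm']
  calc |a * b| / m * (|c * d| / m') ≤ (W * W) / m * ((W * W) / m') := by gcongr
    _ = _ := by ring

lemma fin_bd (ww Br G C : ℝ) (h1 : |ww| ≤ G) (h2 : |Br| ≤ C) (hG : 0 ≤ G) : ww * Br ≤ G * C := by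
  calc ww * Br ≤ |ww * Br| := le_abs_self _
    _ = |ww| * |Br| := abs_mul _ _
    _ ≤ G * C := mul_le_mul h1 h2 (abs_nonneg _) hG

lemma one_le_P {k z R : ℕ} {x : (Fin k → ℕ) × (Fin k → ℕ)} (hx : x ∈ NCF k z R) :
    (1 : ℝ) ≤ ∏ l, ((lc x l).divisors.card : ℝ) := by
  obtain ⟨a1, a2, a3⟩ := lc_rough (mem_PD_of hx).1 (mem_PD_of hx).2
  have h2 : ∏ _l : Fin k, (1 : ℝ) ≤ ∏ l, ((lc x l).divisors.card : ℝ) := by
    apply prod_le_prod
    · intro _ _; norm_num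
    · intro l _
      have : 0 < (lc x l).divisors.card := card_pos.2 ⟨1, Nat.one_mem_divisors.2 (by have := a1 l; omega)⟩
      exact_mod_cast this
  rwa [prod_const_one] at h2

open Classical in
/-- the bound for a pair -/
lemma pair_bd {k : ℕ} {z R X N : ℕ} {a0 b0 : ℤ} {h : Fin k → ℕ} (hR2 : S_R2) (ha0 : 1 ≤ a0) (hza : a0 ≤ (z : ℤ)) (hX : X ≤ N)
    (hR4N : ((R : ℝ) * R) * (R * R) ≤ N) (Λ : (Fin k → ℕ) → ℝ) (W : ℝ) (hW : 0 ≤ W)
    (hΛ : ∀ d ∈ PD (Fin k) z R, |Λ d| ≤ W) (hs : ∀ d, Λ d ≠ 0 → ∏ l, d l ≤ R)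
    {x x' : (Fin k → ℕ) × (Fin k → ℕ)} (hx : x ∈ NCF k z R) (hx' : x' ∈ NCF k z R) :
    (Λ x.1 * Λ x.2 / mo x) * (Λ x'.1 * Λ x'.2 / mo x') *
        ∑ a ∈ Icc 1 X, ((roq a0 b0 h x a : ℝ) - 1) * ((roq a0 b0 h x' a : ℝ) - 1) ≤
      3 * ((W * W) * (W * W)) * (((R : ℝ) * R) * (R * R)) * ((1 / (mo x : ℝ)) * (1 / (mo x' : ℝ))) +
        (if ¬ (mo x).Coprime (mo x') then 7 * N * ((W * W) * (W * W)) *
          ((∏ l, ((lc x l).divisors.card : ℝ)) * ((1 / (mo x : ℝ)) * (1 / (mo x' : ℝ)))) else 0) := by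
  have hm1 := mo_pos hx
  have hm1' := mo_pos hx'
  obtain ⟨M, hM⟩ : ∃ M : ℝ, M = mo x := ⟨_, rfl⟩
  obtain ⟨M', hM'⟩ : ∃ M' : ℝ, M' = mo x' := ⟨_, rfl⟩
  obtain ⟨P, hP⟩ : ∃ P : ℝ, P = ∏ l, ((lc x l).divisors.card : ℝ) := ⟨_, rfl⟩
  have hM1 : 1 ≤ M := by rw [hM]; exact_mod_cast hm1
  have hM1' : 1 ≤ M' := by rw [hM']; exact_mod_cast hm1'
  have hP1 : 1 ≤ P := by rw [hP]; exact one_le_P hx
  have hM0 : 0 < M := by linarith
  have hM0' : 0 < M' := by linarith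
  rw [br_exp X (fun a => (roq a0 b0 h x a : ℝ)) (fun a => (roq a0 b0 h x' a : ℝ))]
  obtain ⟨r1, r2⟩ := hR2 k a0 b0 h z R X ha0 hza x hx
  obtain ⟨r3, -⟩ := hR2 k a0 b0 h z R X ha0 hza x' hx'
  obtain ⟨r4, r5⟩ := r2 x' hx'
  have i0 : 0 ≤ ∑ a ∈ Icc 1 X, (roq a0 b0 h x a : ℝ) := sum_nonneg fun a _ => Nat.cast_nonneg _
  have i1 : 0 ≤ ∑ a ∈ Icc 1 X, (roq a0 b0 h x' a : ℝ) := sum_nonneg fun a _ => Nat.cast_nonneg _
  have i2 : 0 ≤ ∑ a ∈ Icc 1 X, (roq a0 b0 h x a : ℝ) * roq a0 b0 h x' a :=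
    sum_nonneg fun a _ => mul_nonneg (Nat.cast_nonneg _) (Nat.cast_nonneg _)
  rw [← hM] at r1 r5
  rw [← hM'] at r3 r5
  rw [← hP] at r5
  rw [← hM, ← hM', ← hP]
  generalize ∑ a ∈ Icc 1 X, (roq a0 b0 h x a : ℝ) * roq a0 b0 h x' a = s at *
  generalize ∑ a ∈ Icc 1 X, (roq a0 b0 h x a : ℝ) = u at *
  generalize ∑ a ∈ Icc 1 X, (roq a0 b0 h x' a : ℝ) = v at *
  have hrhs : 0 ≤ 3 * ((W * W) * (W * W)) * (((R : ℝ) * R) * (R * R)) * ((1 / M) * (1 / M')) +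
        (if ¬ (mo x).Coprime (mo x') then 7 * N * ((W * W) * (W * W)) * (P * ((1 / M) * (1 / M'))) else 0) := by
    apply add_nonneg
    · positivity
    · split_ifs
      · exact le_rfl
      · positivity
  by_cases c1 : Λ x.1 = 0
  · rw [c1, zero_mul, zero_div, zero_mul, zero_mul]; exact hrhs
  by_cases c2 : Λ x.2 = 0
  · rw [c2, mul_zero, zero_div, zero_mul, zero_mul]; exact hrhs
  by_cases c3 : Λ x'.1 = 0
  · rw [c3, zero_mul, zero_div, mul_zero, zero_mul]; exact hrhs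
  by_cases c4 : Λ x'.2 = 0
  · rw [c4, mul_zero, zero_div, mul_zero, zero_mul]; exact hrhs
  have hmo : M ≤ R * R := by
    have : mo x ≤ R * R := (lc_prod_le x).trans (Nat.mul_le_mul (hs _ c1) (hs _ c2))
    rw [hM]
    exact_mod_cast this
  have hmo' : M' ≤ R * R := by
    have : mo x' ≤ R * R := (lc_prod_le x').trans (Nat.mul_le_mul (hs _ c3) (hs _ c4))
    rw [hM']
    exact_mod_cast this
  have hMM : M * M' ≤ ((R : ℝ) * R) * (R * R) := mul_le_mul hmo hmo' hM0'.le (by positivity)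
  have hLL : |Λ x.1 * Λ x.2| ≤ W * W := by
    rw [abs_mul]
    exact mul_le_mul (hΛ _ (mem_PD_of hx).1) (hΛ _ (mem_PD_of hx).2) (abs_nonneg _) hW
  have hLL' : |Λ x'.1 * Λ x'.2| ≤ W * W := by
    rw [abs_mul]
    exact mul_le_mul (hΛ _ (mem_PD_of hx').1) (hΛ _ (mem_PD_of hx').2) (abs_nonneg _) hW
  have hww := w_bd (Λ x.1) (Λ x.2) (Λ x'.1) (Λ x'.2) W M M' hLL hLL' hM0 hM0' hW
  have hG : 0 ≤ (W * W) * (W * W) * ((1 / M) * (1 / M')) := by positivity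
  by_cases hc : (mo x).Coprime (mo x')
  · rw [if_neg (not_not.2 hc), add_zero]
    have r6 := r4 hc
    rw [← hM, ← hM'] at r6
    have b3 := (b_cop s u v X M M' r6 r1 r3 hM1 hM1').trans (mul_le_mul_of_nonneg_left hMM (by norm_num))
    refine (fin_bd _ _ _ _ hww b3 hG).trans (le_of_eq ?_)
    ring
  · rw [if_pos hc]
    have b3 := b_non s u v X M M' N P i2 i1 r5 r1 r3 hM1 hM1' (by exact_mod_cast hX) (Nat.cast_nonneg X) (hMM.trans hR4N) hP1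
    refine (fin_bd _ _ _ _ hww b3 hG).trans ?_
    have b4 : 0 ≤ 3 * ((W * W) * (W * W)) * (((R : ℝ) * R) * (R * R)) * ((1 / M) * (1 / M')) := by positivity
    have b5 : (W * W) * (W * W) * ((1 / M) * (1 / M')) * (7 * N * P) = 7 * N * ((W * W) * (W * W)) * (P * ((1 / M) * (1 / M'))) := by ring
    rw [b5]
    linarith

open Classical in
/-- the variance -/
lemma var_bd (hW : Pool.Agent.L0h42.PP.S_WC) {k : ℕ} {z R X N : ℕ} {a0 b0 : ℤ} {h : Fin k → ℕ} (hR2 : S_R2) (ha0 : 1 ≤ a0) (hza : a0 ≤ (z : ℤ)) (hX : X ≤ N)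
    (hz : 1 ≤ z) (hR : 1 ≤ R) (hR4N : ((R : ℝ) * R) * (R * R) ≤ N) (Λ : (Fin k → ℕ) → ℝ) (W : ℝ) (hW0 : 0 ≤ W)
    (hΛ : ∀ d ∈ PD (Fin k) z R, |Λ d| ≤ W) (hs : ∀ d, Λ d ≠ 0 → ∏ l, d l ≤ R) :
    ∑ a ∈ Icc 1 X, (∑ x ∈ NCF k z R, Λ x.1 * Λ x.2 * (((roq a0 b0 h x a : ℝ) - 1) / mo x)) ^ 2 ≤
      3 * ((W * W) * (W * W)) * (((R : ℝ) * R) * (R * R)) * (((1 + Real.log R) ^ 3) ^ k * ((1 + Real.log R) ^ 3) ^ k) +
      7 * N * ((W * W) * (W * W)) * (((k + k : ℕ) : ℝ) * (3 / √(z : ℝ)) *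
        ((1 + Real.log R) ^ 3 * (1 + 2 * Real.log R) ^ (2 ^ (2 * 1 + 2))) ^ (k + k)) := by
  have hlR : 0 ≤ Real.log R := Real.log_natCast_nonneg R
  have e0 : ∑ a ∈ Icc 1 X, (∑ x ∈ NCF k z R, Λ x.1 * Λ x.2 * (((roq a0 b0 h x a : ℝ) - 1) / mo x)) ^ 2 =
      ∑ a ∈ Icc 1 X, (∑ x ∈ NCF k z R, (Λ x.1 * Λ x.2 / mo x) * ((roq a0 b0 h x a : ℝ) - 1)) ^ 2 := by
    apply sum_congr rfl
    intro a _
    congr 1
    apply sum_congr rfl
    intro x _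
    ring
  rw [e0, sq_exp (NCF k z R) (Icc 1 X) (fun x => Λ x.1 * Λ x.2 / mo x) (fun x a => (roq a0 b0 h x a : ℝ))]
  refine (sum_le_sum fun x hx => sum_le_sum fun x' hx' => pair_bd hR2 ha0 hza hX hR4N Λ W hW0 hΛ hs hx hx').trans ?_
  have s1 := sum_mo k z R
  have s10 : 0 ≤ ∑ x ∈ NCF k z R, (1 : ℝ) / (mo x : ℝ) := sum_nonneg fun _ _ => by positivity
  have s2 := nc_sum hW k z R hz hR
  have d1 : ∑ x ∈ NCF k z R, ∑ x' ∈ NCF k z R, (3 * ((W * W) * (W * W)) * (((R : ℝ) * R) * (R * R)) * ((1 / (mo x : ℝ)) * (1 / (mo x' : ℝ))) +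
        (if ¬ (mo x).Coprime (mo x') then 7 * N * ((W * W) * (W * W)) *
          ((∏ l, ((lc x l).divisors.card : ℝ)) * ((1 / (mo x : ℝ)) * (1 / (mo x' : ℝ)))) else 0)) =
        3 * ((W * W) * (W * W)) * (((R : ℝ) * R) * (R * R)) * ((∑ x ∈ NCF k z R, 1 / (mo x : ℝ)) * ∑ x ∈ NCF k z R, 1 / (mo x : ℝ)) +
        7 * N * ((W * W) * (W * W)) * ∑ y ∈ (NCF k z R ×ˢ NCF k z R).filter (fun y => ¬ (mo y.1).Coprime (mo y.2)),
          (∏ l, ((lc y.1 l).divisors.card : ℝ)) * ((1 / (mo y.1 : ℝ)) * (1 / (mo y.2 : ℝ))) := by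
    rw [sum_filter, sum_product, sum_mul_sum, mul_sum, mul_sum, ← sum_add_distrib]
    apply sum_congr rfl
    intro x _
    rw [mul_sum, mul_sum, ← sum_add_distrib]
    apply sum_congr rfl
    intro x' _
    congr 1
    rw [mul_ite, mul_zero]
  rw [d1]
  apply add_le_add
  · apply mul_le_mul_of_nonneg_left _ (by positivity)
    exact mul_le_mul s1 s1 s10 (by positivity)
  · exact mul_le_mul_of_nonneg_left s2 (by positivity)

lemma L_bd (L Rl W0 T z0 t N : ℝ) (A B k U : ℕ) (hU : U = 2 * A + 4 * B + 38 * k + 1) (hL1 : 1 ≤ L) (h0 : 0 ≤ Rl) (h1 : 1 + 2 * Rl ≤ L)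
    (hW0 : W0 = L ^ B) (hT0 : 0 ≤ T) (hTt : T ≤ t * t) (ht1 : 1 ≤ t) (hLt : L ^ U ≤ t) (htN : t ^ 40 = N) (hz : L ^ U ≤ √z0) (hk : 42 * k + 3 ≤ L) :
    3 * ((W0 * W0) * (W0 * W0)) * T * (((1 + Rl) ^ 3) ^ k * ((1 + Rl) ^ 3) ^ k) +
      7 * N * ((W0 * W0) * (W0 * W0)) * (((k + k : ℕ) : ℝ) * (3 / √z0) * ((1 + Rl) ^ 3 * (1 + 2 * Rl) ^ (2 ^ (2 * 1 + 2))) ^ (k + k)) ≤
      N / L ^ (2 * A) := by
  have hL0 : 0 < L := by linarith
  have h2 : 1 + Rl ≤ L := by linarith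
  have hN0 : 0 ≤ N := by rw [← htN]; positivity
  have eW : (W0 * W0) * (W0 * W0) = L ^ (4 * B) := by
    rw [hW0, ← pow_add, ← pow_add]; congr 1; ring
  rw [eW]
  have u1 : ((1 + Rl) ^ 3) ^ k * ((1 + Rl) ^ 3) ^ k ≤ L ^ (3 * k) * L ^ (3 * k) := by
    rw [← pow_mul, pow_mul, ← pow_mul]
    have : (1 + Rl) ^ (3 * k) ≤ L ^ (3 * k) := pow_le_pow_left₀ (by linarith) h2 _
    exact mul_le_mul this this (by positivity) (by positivity)
  have u2 : ((1 + Rl) ^ 3 * (1 + 2 * Rl) ^ (2 ^ (2 * 1 + 2))) ^ (k + k) ≤ L ^ (38 * k) := by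
    have e16 : (2 : ℕ) ^ (2 * 1 + 2) = 16 := by norm_num
    rw [e16]
    have a1 : (1 + Rl) ^ 3 ≤ L ^ 3 := pow_le_pow_left₀ (by linarith) h2 _
    have a2 : (1 + 2 * Rl) ^ 16 ≤ L ^ 16 := pow_le_pow_left₀ (by linarith) h1 _
    have a3 : (1 + Rl) ^ 3 * (1 + 2 * Rl) ^ 16 ≤ L ^ 19 := by
      calc _ ≤ L ^ 3 * L ^ 16 := mul_le_mul a1 a2 (by positivity) (by positivity)
        _ = L ^ 19 := by rw [← pow_add]
    calc _ ≤ (L ^ 19) ^ (k + k) := pow_le_pow_left₀ (by positivity) a3 _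
      _ = L ^ (38 * k) := by rw [← pow_mul]; congr 1; ring
  have u3 : (3 : ℝ) / √z0 ≤ 3 / L ^ U := div_le_div_of_nonneg_left (by norm_num) (by positivity) hz
  have v1 : 3 * L ^ (4 * B) * T * (((1 + Rl) ^ 3) ^ k * ((1 + Rl) ^ 3) ^ k) ≤ 3 * (N / L ^ (2 * A + 1)) := by
    have v2 : L ^ (4 * B) * T * (L ^ (3 * k) * L ^ (3 * k)) ≤ N / L ^ (2 * A + 1) := by
      rw [le_div_iff₀ (by positivity)]
      have e1 : L ^ (4 * B) * T * (L ^ (3 * k) * L ^ (3 * k)) * L ^ (2 * A + 1) = L ^ (4 * B + 3 * k + 3 * k + (2 * A + 1)) * T := by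
        rw [pow_add, pow_add, pow_add]; ring
      rw [e1]
      calc L ^ (4 * B + 3 * k + 3 * k + (2 * A + 1)) * T ≤ L ^ U * (t * t) :=
            mul_le_mul (pow_le_pow_right₀ hL1 (by rw [hU]; omega)) hTt hT0 (by positivity)
        _ ≤ t * (t * t) := mul_le_mul_of_nonneg_right hLt (by positivity)
        _ = t ^ 3 := by ring
        _ ≤ t ^ 40 := pow_le_pow_right₀ ht1 (by norm_num)
        _ = N := htN
    calc _ ≤ 3 * L ^ (4 * B) * T * (L ^ (3 * k) * L ^ (3 * k)) := mul_le_mul_of_nonneg_left u1 (by positivity)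
      _ = 3 * (L ^ (4 * B) * T * (L ^ (3 * k) * L ^ (3 * k))) := by ring
      _ ≤ _ := by linarith
  have v3 : 7 * N * L ^ (4 * B) * (((k + k : ℕ) : ℝ) * (3 / √z0) * ((1 + Rl) ^ 3 * (1 + 2 * Rl) ^ (2 ^ (2 * 1 + 2))) ^ (k + k)) ≤
      42 * k * (N / L ^ (2 * A + 1)) := by
    have v4 : ((k + k : ℕ) : ℝ) * (3 / √z0) * ((1 + Rl) ^ 3 * (1 + 2 * Rl) ^ (2 ^ (2 * 1 + 2))) ^ (k + k) ≤
        ((k + k : ℕ) : ℝ) * (3 / L ^ U) * L ^ (38 * k) :=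
      mul_le_mul (mul_le_mul_of_nonneg_left u3 (by positivity)) u2 (by positivity) (by positivity)
    refine (mul_le_mul_of_nonneg_left v4 (by positivity)).trans (le_of_eq ?_)
    rw [hU]
    have e3 : L ^ (2 * A + 4 * B + 38 * k + 1) = L ^ (2 * A + 1) * L ^ (4 * B) * L ^ (38 * k) := by
      rw [← pow_add, ← pow_add]; congr 1; ring
    rw [e3]
    push_cast
    field_simp
    ring
  calc _ ≤ 3 * (N / L ^ (2 * A + 1)) + 42 * k * (N / L ^ (2 * A + 1)) := add_le_add v1 v3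
    _ = (42 * k + 3) / L * (N / L ^ (2 * A)) := by
        rw [pow_succ]
        field_simp
        ring
    _ ≤ 1 * (N / L ^ (2 * A)) := by
        apply mul_le_mul_of_nonneg_right _ (by positivity)
        rw [div_le_one (by positivity)]
        exact hk
    _ = _ := one_mul _

/-- **VAR.** -/
theorem t_VAR (hR2 : S_R2) (hW : Pool.Agent.L0h42.PP.S_WC) : S_VAR := by
  intro k A B hk a0 b0 ha0 h
  obtain ⟨U, hU⟩ : ∃ U, U = 2 * A + 4 * B + 38 * k + 1 := ⟨_, rfl⟩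
  refine ⟨2 * U, fun E => ?_⟩
  obtain ⟨m3, h3⟩ := log_le_t U
  obtain ⟨m4, h4⟩ := ev_L' ((a0 : ℝ) + (42 * k + 3))
  refine ⟨max m3 (max m4 3), ?_⟩
  intro N hN z R X hz1 hz2 hR1 hR hX Λ hΛ hs
  have n3 : m3 ≤ N := le_trans (le_max_left _ _) hN
  have n4 : m4 ≤ N := le_trans (le_trans (le_max_left _ _) (le_max_right _ _)) hN
  have hN3 : 3 ≤ N := le_trans (le_trans (le_max_right _ _) (le_max_right _ _)) hN
  have hN1 : 1 ≤ N := by omega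
  have hN0 : (0 : ℝ) < N := by exact_mod_cast hN1
  obtain ⟨t, ht0, ht40, hsq⟩ := exists_t N hN1
  have hLm := h3 N n3 t ht0 ht40 hsq
  have hLb := h4 N n4
  set L := Real.log N with hLd
  have ha0r : (1 : ℝ) ≤ (a0 : ℝ) := by exact_mod_cast ha0
  have hk0 : (0 : ℝ) ≤ k := Nat.cast_nonneg k
  have hL1 : 1 ≤ L := by linarith
  have hL0 : 0 < L := by linarith
  have hU1 : 1 ≤ U := by omega
  have hza : a0 ≤ (z : ℤ) := by
    have e : (a0 : ℝ) ≤ (z : ℝ) := by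
      have : L ≤ L ^ (2 * U) := le_self_pow₀ hL1 (by omega)
      linarith
    exact_mod_cast e
  have hz0 : (0 : ℝ) < z := lt_of_lt_of_le (by positivity) hz1
  have hz : 1 ≤ z := by exact_mod_cast hz0
  have hRr : (1 : ℝ) ≤ R := by exact_mod_cast hR1
  have hlR0 : 0 ≤ Real.log R := Real.log_nonneg hRr
  have hlogR2 : 1 + 2 * Real.log R ≤ L := by
    have e1 : Real.log ((R : ℝ) ^ 80) ≤ L := Real.log_le_log (by positivity) (by exact_mod_cast hR)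
    rw [Real.log_pow] at e1
    push_cast at e1
    by_cases hq : Real.log R ≤ 1
    · linarith
    · linarith
  have ht1 : 1 ≤ t := by
    have : L ≤ t := le_trans (le_self_pow₀ hL1 (by omega)) hLm
    linarith
  have hRt : (R : ℝ) * R ≤ t := by
    apply le_of_pow_le_pow_left₀ (n := 40) (by norm_num) ht0
    rw [ht40]
    have e1 : ((R : ℝ) * R) ^ 40 = (R : ℝ) ^ 80 := by ring
    rw [e1]
    exact_mod_cast hR
  have hRtt : ((R : ℝ) * R) * (R * R) ≤ t * t := mul_le_mul hRt hRt (by positivity) ht0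
  have hR4N : ((R : ℝ) * R) * (R * R) ≤ N := by
    calc ((R : ℝ) * R) * (R * R) ≤ t * t := hRtt
      _ = t ^ 2 := by ring
      _ ≤ t ^ 40 := pow_le_pow_right₀ ht1 (by norm_num)
      _ = N := ht40
  have hXN : (X : ℝ) ≤ N := by exact_mod_cast hX
  have hsz : L ^ U ≤ √(z : ℝ) := by
    apply Real.le_sqrt_of_sq_le
    rw [← pow_mul, mul_comm]
    exact hz1
  have hLk : 42 * (k : ℝ) + 3 ≤ L := by linarith
  have key := (var_bd (b0 := b0) (h := h) hW hR2 ha0 hza hX hz hR1 hR4N Λ (L ^ B) (by positivity) hΛ hs).trans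
    (L_bd L (Real.log R) (L ^ B) (((R : ℝ) * R) * (R * R)) z t N A B k U hU hL1 hlR0 hlogR2 rfl (by positivity) hRtt ht1 hLm ht40 hsz hLk)
  have h5 := sq_sum_le_card_mul_sum_sq (s := Icc 1 X) (f := fun a => |∑ x ∈ NCF k z R, Λ x.1 * Λ x.2 * (((roq a0 b0 h x a : ℝ) - 1) / mo x)|)
  simp only [sq_abs, Nat.card_Icc, Nat.add_sub_cancel] at h5
  apply le_of_pow_le_pow_left₀ (n := 2) (by norm_num) (by positivity)
  refine h5.trans ((mul_le_mul hXN key (sum_nonneg fun _ _ => sq_nonneg _) hN0.le).trans (le_of_eq ?_))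
  rw [div_pow, ← pow_mul, mul_comm A 2]
  ring

end Pool.Agent.L0h2.CL
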